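import Mathlib

set_option autoImplicit false

/-! Doubling the ones in optimal integer-complexity expressions: counterexamples. -/

namespace Pool.Agent.Results.MP_d302e1_nt.DoublingFails

/-- Formulas built from copies of one constant with binary `+` and `×`, with arbitrary
parenthesisation. -/
inductive Expr' where
  | one : Expr'
  | add : Expr' → Expr' → Expr'
  | mul : Expr' → Expr' → Expr'

namespace Expr'

/-- the value of the formula when the constant is `l` -/
def val (l : ℕ) : Expr' → ℕ
  | one => l
  | add a b => val l a + val l b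
  | mul a b => val l a * val l b

/-- the number of copies of the constant -/
def size : Expr' → ℕ
  | one => 1
  | add a b => size a + size b
  | mul a b => size a + size b

/-- the number of summands that are the literal constant, reading the formula as a sum of several
summands (`+` is associative); a product is a sum with one summand, which is not a literal -/
def ones : Expr' → ℕ
  | one => 1
  | add a b => ones a + ones b
  | mul _ _ => 0

/-- no sum occurring in the formula has four or more summands that are the literal constant -/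
def Reduced : Expr' → Prop
  | one => True
  | add a b => Reduced a ∧ Reduced b ∧ ones (add a b) ≤ 3
  | mul a b => Reduced a ∧ Reduced b

end Expr'

open Expr'

/-- the `l`-complexity of `n`: the least size of an `l`-expression with value `n` -/
noncomputable def cplx (l n : ℕ) : ℕ := sInf {s : ℕ | ∃ e : Expr', val l e = n ∧ size e = s}

/-- `e` is a reduced most efficient representation of `n` -/
def IsRMER (n : ℕ) (e : Expr') : Prop := val 1 e = n ∧ size e = cplx 1 n ∧ Reduced e

/-! ### Proof -/

/-- the complexities of `1, …, 47` -/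
def F : ℕ → ℕ := fun n => ([0, 1, 2, 3, 4, 5, 5, 6, 6, 6, 7, 8, 7, 8, 8, 8, 8, 9, 8, 9, 9, 9, 10,
  11, 9, 10, 10, 9, 10, 11, 10, 11, 10, 11, 11, 11, 10, 11, 11, 11, 11, 12, 11, 12, 12, 11, 12,
  13] : List ℕ).getD n 0

/-- the possible pairs (value after doubling, number of literal summands) of reduced most
efficient representations of `n ≤ 47` -/
def T : ℕ → List (ℕ × ℕ) := fun n => ([[],
  [(2, 1)], [(4, 2)], [(6, 3)], [(16, 0)], [(18, 1)], [(24, 0)], [(26, 1)], [(64, 0)], [(36, 0)],
  [(38, 1), (72, 0)], [(40, 2), (74, 1)], [(96, 0)], [(98, 1)], [(104, 0)], [(108, 0)],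
  [(256, 0)], [(258, 1)], [(144, 0)], [(146, 1)], [(152, 0), (288, 0)], [(156, 0)],
  [(158, 1), (160, 0), (296, 0)], [(160, 2), (162, 1), (298, 1)], [(384, 0)],
  [(324, 0), (386, 1)], [(392, 0)], [(216, 0)], [(218, 1), (416, 0)], [(220, 2), (418, 1)],
  [(228, 0), (432, 0)], [(230, 1), (434, 1)], [(1024, 0)], [(240, 0), (444, 0), (1026, 1)],
  [(1032, 0)], [(468, 0)], [(576, 0)], [(578, 1)], [(584, 0)], [(588, 0)],
  [(608, 0), (1152, 0)], [(610, 1), (1154, 1)], [(624, 0)], [(626, 1)],
  [(632, 0), (640, 0), (1184, 0)], [(648, 0)], [(650, 1)], [(652, 2)]] :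
  List (List (ℕ × ℕ))).getD n []

/-- the check for sums -/
def chkAdd (x y : ℕ) : Bool :=
  decide (F (x + y) ≤ F x + F y) && (!(decide (F x + F y = F (x + y))) ||
    (T x).all fun p => (T y).all fun q => decide (3 < p.2 + q.2) ||
      (T (x + y)).contains (p.1 + q.1, p.2 + q.2))

/-- the check for products -/
def chkMul (x y : ℕ) : Bool :=
  decide (F (x * y) ≤ F x + F y) && (!(decide (F x + F y = F (x * y))) ||
    (T x).all fun p => (T y).all fun q => (T (x * y)).contains (p.1 * q.1, 0))

theorem chkAdd_all : ∀ x < 48, ∀ y < 48, 1 ≤ x → 1 ≤ y → x + y < 48 → chkAdd x y = true := by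
  decide +kernel

theorem chkMul_all : ∀ x < 48, ∀ y < 48, 2 ≤ x → 2 ≤ y → x * y < 48 → chkMul x y = true := by
  decide +kernel

/-- the tables are closed under sums -/
theorem tab_add (x : ℕ) (hx : x < 48) (y : ℕ) (hy : y < 48) (hx1 : 1 ≤ x) (hy1 : 1 ≤ y)
    (h : x + y < 48) :
    F (x + y) ≤ F x + F y ∧ (F x + F y = F (x + y) → ∀ p ∈ T x, ∀ q ∈ T y, p.2 + q.2 ≤ 3 →
      (p.1 + q.1, p.2 + q.2) ∈ T (x + y)) := by
  have := chkAdd_all x hx y hy hx1 hy1 h
  unfold chkAdd at this
  rw [Bool.and_eq_true, decide_eq_true_eq, Bool.or_eq_true, Bool.not_eq_true',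
    decide_eq_false_iff_not] at this
  refine ⟨this.1, fun he p hp q hq hpq => ?_⟩
  rcases this.2 with h1 | h1
  · exact absurd he h1
  · rw [List.all_eq_true] at h1
    have h2 := h1 p hp
    rw [List.all_eq_true] at h2
    have h3 := h2 q hq
    rw [Bool.or_eq_true, decide_eq_true_eq, List.contains_iff_mem] at h3
    rcases h3 with h3 | h3
    · omega
    · exact h3

/-- the tables are closed under products -/
theorem tab_mul (x : ℕ) (hx : x < 48) (y : ℕ) (hy : y < 48) (hx1 : 2 ≤ x) (hy1 : 2 ≤ y)
    (h : x * y < 48) :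
    F (x * y) ≤ F x + F y ∧ (F x + F y = F (x * y) → ∀ p ∈ T x, ∀ q ∈ T y,
      (p.1 * q.1, 0) ∈ T (x * y)) := by
  have := chkMul_all x hx y hy hx1 hy1 h
  unfold chkMul at this
  rw [Bool.and_eq_true, decide_eq_true_eq, Bool.or_eq_true, Bool.not_eq_true',
    decide_eq_false_iff_not] at this
  refine ⟨this.1, fun he p hp q hq => ?_⟩
  rcases this.2 with h1 | h1
  · exact absurd he h1
  · rw [List.all_eq_true] at h1
    have h2 := h1 p hp
    rw [List.all_eq_true] at h2
    have h3 := h2 q hq
    rwa [List.contains_iff_mem] at h3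

theorem F_pos : ∀ x < 48, 1 ≤ x → 1 ≤ F x := by decide +kernel

theorem val_pos (e : Expr') : 1 ≤ val 1 e := by
  induction e with
  | one => exact le_rfl
  | add a b ha hb => simp only [val]; omega
  | mul a b ha hb => simp only [val]; exact Nat.mul_pos ha hb

theorem main (e : Expr') : val 1 e < 48 → F (val 1 e) ≤ size e ∧
    (size e = F (val 1 e) → Reduced e → (val 2 e, ones e) ∈ T (val 1 e)) := by
  induction e with
  | one =>
    intro _
    simp only [val, size, ones]
    exact ⟨by decide, fun _ _ => by decide⟩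
  | add a b iha ihb =>
    intro h
    simp only [val] at h
    have ha := val_pos a
    have hb := val_pos b
    obtain ⟨a1, a2⟩ := iha (by omega)
    obtain ⟨b1, b2⟩ := ihb (by omega)
    obtain ⟨t1, t2⟩ := tab_add (val 1 a) (by omega) (val 1 b) (by omega) ha hb h
    simp only [val, size]
    refine ⟨by omega, fun hs hr => ?_⟩
    obtain ⟨r1, r2, r3⟩ := hr
    exact t2 (by omega) _ (a2 (by omega) r1) _ (b2 (by omega) r2) r3
  | mul a b iha ihb =>
    intro h
    simp only [val] at h
    have ha := val_pos a
    have hb := val_pos b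
    have hla : val 1 a ≤ val 1 a * val 1 b := Nat.le_mul_of_pos_right _ hb
    have hlb : val 1 b ≤ val 1 a * val 1 b := Nat.le_mul_of_pos_left _ ha
    obtain ⟨a1, a2⟩ := iha (by omega)
    obtain ⟨b1, b2⟩ := ihb (by omega)
    have fa := F_pos (val 1 a) (by omega) ha
    have fb := F_pos (val 1 b) (by omega) hb
    simp only [val, size]
    rcases Nat.lt_or_ge (val 1 a) 2 with h1 | h1
    · have e1 : val 1 a = 1 := by omega
      rw [e1, Nat.one_mul]
      rw [e1] at a1 fa
      exact ⟨by omega, fun hs => by omega⟩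
    · rcases Nat.lt_or_ge (val 1 b) 2 with h2 | h2
      · have e1 : val 1 b = 1 := by omega
        rw [e1, Nat.mul_one]
        exact ⟨by omega, fun hs => by omega⟩
      · obtain ⟨t1, t2⟩ := tab_mul (val 1 a) (by omega) (val 1 b) (by omega) h1 h2 h
        refine ⟨by omega, fun hs hr => ?_⟩
        exact t2 (by omega) _ (a2 (by omega) hr.1) _ (b2 (by omega) hr.2)

theorem cplx_le (l : ℕ) (e : Expr') : cplx l (val l e) ≤ size e :=
  Nat.sInf_le ⟨e, rfl, rfl⟩

theorem cplx_eq {n : ℕ} (hn : n < 48) (e : Expr') (h1 : val 1 e = n) (h2 : size e = F n) :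
    cplx 1 n = F n := by
  apply le_antisymm
  · rw [← h2, ← h1]
    exact cplx_le 1 e
  · have hne : {s : ℕ | ∃ e : Expr', val 1 e = n ∧ size e = s}.Nonempty := ⟨size e, e, h1, rfl⟩
    refine le_csInf hne ?_
    rintro s ⟨e', h3, rfl⟩
    have := (main e' (by omega)).1
    rwa [h3] at this

/-- `1 + 1` -/
def e2 : Expr' := add one one
/-- `1 + 1 + 1` -/
def e3 : Expr' := add e2 one
/-- `(1+1+1)(1+1+1) + 1 + 1 = 11` -/
def e11 : Expr' := add (add (mul e3 e3) one) one
/-- a reduced most efficient representation of `47` -/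
def e47 : Expr' := add (add (mul (mul e3 e3) (add (mul e2 e2) one)) one) one

/-- an expression in six twos with value `40`: `2·(2·(2·(2·2) + 2))` -/
def f40 : Expr' := mul one (mul one (add (mul one (mul one one)) one))

/-- an expression in twelve twos with value `652`: `2(2 + 2(2 + 2·2·2·2(2 + 2(2 + 2))))` -/
def f652 : Expr' := mul one (add one (mul one (add one (mul one (mul one (mul one (mul one
  (add one (mul one (add one one))))))))))

/-- **Doubling the ones can shorten.** (1) `R = (1+1+1)(1+1+1)+1+1` is a reduced most efficient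
representation of `11`, `‖11‖₁ = 8`, `a(11,R) = 40` and `‖40‖₂ ≤ 6`. (2) The number `47` has
reduced most efficient representations, and every one of them, `R`, satisfies
`‖a(47,R)‖₂ < ‖47‖₁`. -/
theorem result :
    (∃ e, IsRMER 11 e ∧ cplx 1 11 = 8 ∧ val 2 e = 40 ∧ cplx 2 40 ≤ 6) ∧
    (∃ e, IsRMER 47 e) ∧ ∀ e, IsRMER 47 e → cplx 2 (val 2 e) < cplx 1 47 := by
  have c11 : cplx 1 11 = 8 := cplx_eq (by norm_num) e11 (by decide) (by decide)
  have c47 : cplx 1 47 = 13 := cplx_eq (by norm_num) e47 (by decide) (by decide)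
  refine ⟨⟨e11, ⟨by decide, ?_, ?_⟩, c11, by decide, ?_⟩, ⟨e47, by decide, ?_, ?_⟩, ?_⟩
  · rw [c11]; decide
  · simp [e11, e3, e2, Reduced, ones]
  · have h1 : val 2 f40 = 40 := by decide
    have h2 : size f40 = 6 := by decide
    rw [← h1, ← h2]
    exact cplx_le 2 f40
  · rw [c47]; decide
  · simp [e47, e3, e2, Reduced, ones]
  · rintro e ⟨h1, h2, h3⟩
    obtain ⟨-, m2⟩ := main e (by omega)
    rw [h1] at m2
    have hT := m2 (by rw [h2, c47]; decide) h3
    have hT' : val 2 e = 652 := by
      have e1 : T 47 = [(652, 2)] := by decide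
      rw [e1, List.mem_singleton, Prod.mk.injEq] at hT
      exact hT.1
    rw [hT', c47]
    have g1 : val 2 f652 = 652 := by decide
    have g2 : size f652 = 12 := by decide
    have := cplx_le 2 f652
    rw [g1, g2] at this
    omega

end Pool.Agent.Results.MP_d302e1_nt.DoublingFails
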